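import Pool.Agent.V5helper49.LR.Stm2

/-! Project LR, job PRB. -/

set_option autoImplicit false

namespace Pool.Agent.V5helper70.LR

open Finset MeasureTheory ProbabilityTheory Filter
open scoped ENNReal
open Pool.Agent.V5helper49.LR
open Pool.Agent.V5helper42.RS (EE S PP W model EE_mono EE_congr EE_const EE_le_const EE_append prob_le ae_lt)

/-- the primes up to `z` -/
def sm (z : ℕ) : Finset ℕ := (range (z + 1)).filter Nat.Prime

lemma mem_sm (z p : ℕ) : p ∈ sm z ↔ p.Prime ∧ p ≤ z := by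
  unfold sm
  rw [mem_filter, mem_range, and_comm]
  constructor
  · rintro ⟨h1, h2⟩; exact ⟨h1, by omega⟩
  · rintro ⟨h1, h2⟩; exact ⟨h1, by omega⟩

lemma dvd_primorial {z p : ℕ} (hp : p ∈ sm z) : p ∣ primorial z := by
  unfold primorial
  exact dvd_prod_of_mem (fun q => q) hp

lemma dvd_primorial' {z p : ℕ} (hp : p.Prime) (h : p ∣ primorial z) : p ∈ sm z := by
  unfold primorial at h
  obtain ⟨q, hq, hpq⟩ := (Prime.dvd_finsetProd_iff hp.prime _).1 h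
  have h1 : q.Prime := (mem_filter.1 hq).2
  have h2 : p = q := (Nat.prime_dvd_prime_iff_eq hp h1).1 hpq
  rw [h2]
  exact hq

/-- Chinese remainder -/
lemma crt (X z : ℕ) (b : ℕ → ℕ) (hb : ∀ p : ℕ, p.Prime → b p < p) (ρ : ℕ → ℕ) :
    ∃ n : ℕ, X < n ∧ n ≤ X + primorial z ∧ ∀ p ∈ sm z, n + b p ≡ ρ p [MOD p] := by
  obtain ⟨k, hk⟩ := Nat.chineseRemainderOfFinset (fun p => ρ p + (p - b p)) (fun p => p) (sm z)
    (fun p hp => ((mem_sm z p).1 hp).1.ne_zero)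
    (by
      intro p hp q hq hpq
      exact (Nat.coprime_primes ((mem_sm z p).1 hp).1 ((mem_sm z q).1 hq).1).2 hpq)
  have hP := primorial_pos z
  obtain ⟨P, hPd⟩ : ∃ P, P = primorial z := ⟨_, rfl⟩
  rw [← hPd] at hP ⊢
  refine ⟨X + 1 + (k + (X + 1) * (P - 1)) % P, by omega, ?_, fun p hp => ?_⟩
  · have := Nat.mod_lt (k + (X + 1) * (P - 1)) hP
    omega
  · have hpP : p ∣ P := hPd ▸ dvd_primorial hp
    have h1 : (k + (X + 1) * (P - 1)) % P ≡ k + (X + 1) * (P - 1) [MOD p] :=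
      (Nat.mod_modEq _ _).of_dvd hpP
    have h2 : X + 1 + (k + (X + 1) * (P - 1)) = k + (X + 1) * P := by
      obtain ⟨P', rfl⟩ : ∃ P', P = P' + 1 := ⟨P - 1, by omega⟩
      simp only [Nat.add_sub_cancel]
      ring
    have h3 : X + 1 + (k + (X + 1) * (P - 1)) % P ≡ k [MOD p] := by
      refine (Nat.ModEq.add_left _ h1).trans ?_
      rw [h2]
      have h4 : (X + 1) * P ≡ 0 [MOD p] := (Nat.modEq_zero_iff_dvd).2 (Dvd.dvd.mul_left hpP _)
      simpa using Nat.ModEq.add_left k h4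
    have h5 := (h3.trans (hk p hp)).add_right (b p)
    have h6 : ρ p + (p - b p) + b p = ρ p + p := by
      have := hb p ((mem_sm z p).1 hp).1
      omega
    rw [h6] at h5
    refine h5.trans ?_
    unfold Nat.ModEq
    simp

lemma num : ∃ X₀ : ℕ, ∀ X : ℕ, X₀ ≤ X → ∀ ε : ℝ, 0 < ε → ε ≤ 1 → ∀ H : ℕ, (H : ℝ) ≤ Real.log X ^ (2 - ε) →
    2 ≤ z1 X ∧ ∃ i : ℕ, H < 2 ^ i ∧ (X : ℝ) ^ (1 / 4 : ℝ) ≤ ((X / (2 * (primorial (z1 X) * 2 ^ i)) : ℕ) : ℝ) := by
  have hcast : Tendsto (fun X : ℕ => (X : ℝ)) atTop atTop := tendsto_natCast_atTop_atTop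
  have hlog : Tendsto (fun X : ℕ => Real.log X) atTop atTop := Real.tendsto_log_atTop.comp hcast
  have h1 := ((isLittleO_log_rpow_rpow_atTop (2 : ℝ) (by norm_num : (0 : ℝ) < 2 / 5)).bound
    (by norm_num : (0 : ℝ) < 1 / 16))
  have h2 := hcast.eventually h1
  have h3 := hlog.eventually_ge_atTop 8
  obtain ⟨X₀, hX₀⟩ := eventually_atTop.1 (h2.and (h3.and (eventually_ge_atTop 1)))
  refine ⟨X₀, fun X hX ε hε hε1 H hH => ?_⟩
  obtain ⟨ha, hb, hc⟩ := hX₀ X hX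
  have hX0 : (0 : ℝ) < X := by exact_mod_cast hc
  have hL0 : 0 < Real.log X := by linarith
  have ha' : 16 * Real.log X ^ 2 ≤ (X : ℝ) ^ (2 / 5 : ℝ) := by
    rw [Real.norm_of_nonneg (by positivity), Real.norm_of_nonneg (by positivity)] at ha
    have : Real.log X ^ (2 : ℝ) = Real.log X ^ 2 := Real.rpow_natCast _ 2
    rw [this] at ha
    linarith
  have hz : 2 ≤ z1 X := by
    unfold z1
    apply Nat.le_floor
    push_cast
    linarith
  refine ⟨hz, Nat.log 2 H + 1, Nat.lt_pow_succ_log_self (by norm_num) H, ?_⟩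
  have hH2 : (H : ℝ) ≤ Real.log X ^ 2 := by
    refine hH.trans ?_
    rw [← Real.rpow_natCast]
    apply Real.rpow_le_rpow_of_exponent_le (by linarith)
    push_cast
    linarith
  have h2i : (((2 : ℕ) ^ (Nat.log 2 H + 1) : ℕ) : ℝ) ≤ 2 * Real.log X ^ 2 := by
    rcases Nat.eq_zero_or_pos H with h0 | h0
    · subst h0
      simp only [Nat.log_zero_right, zero_add, pow_one]
      push_cast
      nlinarith
    · have h4 : 2 ^ Nat.log 2 H ≤ H := Nat.pow_log_le_self 2 (by omega)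
      have h5 : 2 ^ (Nat.log 2 H + 1) ≤ 2 * H := by rw [pow_succ]; omega
      have h6 : (((2 : ℕ) ^ (Nat.log 2 H + 1) : ℕ) : ℝ) ≤ ((2 * H : ℕ) : ℝ) := by exact_mod_cast h5
      refine h6.trans ?_
      push_cast
      linarith
  have hP : ((primorial (z1 X) : ℕ) : ℝ) ≤ (X : ℝ) ^ (7 / 20 : ℝ) := by
    have h4 : ((primorial (z1 X) : ℕ) : ℝ) ≤ ((4 ^ (z1 X) : ℕ) : ℝ) := by exact_mod_cast primorial_le_four_pow (z1 X)
    refine h4.trans ?_
    push_cast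
    have h5 : (4 : ℝ) ^ (z1 X) = Real.exp (Real.log 4 * z1 X) := by
      rw [mul_comm, Real.exp_nat_mul, Real.exp_log (by norm_num)]
    rw [h5, Real.rpow_def_of_pos hX0]
    apply Real.exp_le_exp.2
    have h6 : (z1 X : ℝ) ≤ Real.log X / 4 := Nat.floor_le (by positivity)
    have h7 : Real.log 4 ≤ 7 / 5 := by
      have : (4 : ℝ) = 2 ^ 2 := by norm_num
      rw [this, Real.log_pow]
      have := Real.log_two_lt_d9
      push_cast
      linarith
    have h8 : 0 ≤ Real.log 4 := Real.log_nonneg (by norm_num)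
    calc Real.log 4 * z1 X ≤ (7 / 5) * (Real.log X / 4) := mul_le_mul h7 h6 (by positivity) (by norm_num)
      _ = Real.log X * (7 / 20) := by ring
  -- the quotient
  obtain ⟨D, hD⟩ : ∃ D : ℕ, D = 2 * (primorial (z1 X) * 2 ^ (Nat.log 2 H + 1)) := ⟨_, rfl⟩
  rw [← hD]
  have hD0 : 0 < D := by
    rw [hD]
    have := primorial_pos (z1 X)
    positivity
  have hDle : (D : ℝ) ≤ 4 * (X : ℝ) ^ (7 / 20 : ℝ) * Real.log X ^ 2 := by
    rw [hD]
    push_cast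
    push_cast at h2i
    have h9 : ((primorial (z1 X) : ℕ) : ℝ) * 2 ^ (Nat.log 2 H + 1) ≤ (X : ℝ) ^ (7 / 20 : ℝ) * (2 * Real.log X ^ 2) :=
      mul_le_mul hP h2i (by positivity) (by positivity)
    linarith
  have hlt : (X : ℝ) < ((X / D : ℕ) + 1 : ℝ) * D := by
    have h9 := Nat.lt_div_mul_add hD0 (a := X)
    have h10 : X < (X / D + 1) * D := by
      rw [add_mul, one_mul]
      exact h9
    exact_mod_cast h10
  by_contra hcon
  push Not at hcon
  have hx1 : (1 : ℝ) ≤ (X : ℝ) ^ (1 / 4 : ℝ) := Real.one_le_rpow (by exact_mod_cast hc) (by norm_num)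
  have h11 : ((X / D : ℕ) + 1 : ℝ) * D ≤ (2 * (X : ℝ) ^ (1 / 4 : ℝ)) * (4 * (X : ℝ) ^ (7 / 20 : ℝ) * Real.log X ^ 2) :=
    mul_le_mul (by linarith) hDle (by positivity) (by positivity)
  have h12 : (2 * (X : ℝ) ^ (1 / 4 : ℝ)) * (4 * (X : ℝ) ^ (7 / 20 : ℝ) * Real.log X ^ 2) =
      (X : ℝ) ^ (3 / 5 : ℝ) * (8 * Real.log X ^ 2) := by
    have : (X : ℝ) ^ (3 / 5 : ℝ) = (X : ℝ) ^ (1 / 4 : ℝ) * (X : ℝ) ^ (7 / 20 : ℝ) := by
      rw [← Real.rpow_add hX0]; norm_num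
    rw [this]; ring
  have h13 : (X : ℝ) ^ (3 / 5 : ℝ) * (8 * Real.log X ^ 2) ≤ (X : ℝ) ^ (3 / 5 : ℝ) * (X : ℝ) ^ (2 / 5 : ℝ) := by
    apply mul_le_mul_of_nonneg_left _ (by positivity)
    nlinarith [sq_nonneg (Real.log X)]
  have h14 : (X : ℝ) ^ (3 / 5 : ℝ) * (X : ℝ) ^ (2 / 5 : ℝ) = X := by
    rw [← Real.rpow_add hX0]; norm_num
  linarith

/-- the restriction of `ρ` to the small primes -/
def rst (z : ℕ) (ρ : ℕ → ℕ) : ℕ → ℕ := fun p => if p ∈ sm z then ρ p else 0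

/-- the starting point -/
noncomputable def n0 (X z : ℕ) (b : ℕ → ℕ) (hb : ∀ p : ℕ, p.Prime → b p < p) (ρ : ℕ → ℕ) : ℕ :=
  (crt X z b hb (rst z ρ)).choose

lemma n0_spec (X z : ℕ) (b : ℕ → ℕ) (hb : ∀ p : ℕ, p.Prime → b p < p) (ρ : ℕ → ℕ) :
    X < n0 X z b hb ρ ∧ n0 X z b hb ρ ≤ X + primorial z ∧ ∀ p ∈ sm z, n0 X z b hb ρ + b p ≡ ρ p [MOD p] := by
  obtain ⟨h1, h2, h3⟩ := (crt X z b hb (rst z ρ)).choose_spec
  refine ⟨h1, h2, fun p hp => ?_⟩
  have h4 := h3 p hp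
  unfold rst at h4
  rw [if_pos hp] at h4
  exact h4

lemma n0_congr (X z : ℕ) (b : ℕ → ℕ) (hb : ∀ p : ℕ, p.Prime → b p < p) {ρ ρ' : ℕ → ℕ} (h : ∀ p ∈ sm z, ρ p = ρ' p) :
    n0 X z b hb ρ = n0 X z b hb ρ' := by
  have : rst z ρ = rst z ρ' := by
    funext p
    unfold rst
    split_ifs with hp
    · exact h p hp
    · rfl
  unfold n0
  simp only [this]

lemma Ok_congr (T V B : Finset ℕ) (l : List ℕ) (n : ℕ) {ρ ρ' : ℕ → ℕ} (h : ∀ p ∈ l, ρ p = ρ' p) :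
    Ok T V B l n ρ ↔ Ok T V B l n ρ' := by
  unfold Ok
  constructor
  · rintro ⟨h1, h2⟩
    refine ⟨fun p hp t ht => ?_, fun v hv => ?_⟩
    · rw [← h p hp]; exact h1 p hp t ht
    · obtain ⟨p, hp, hpB, he⟩ := h2 v hv
      exact ⟨p, hp, hpB, by rw [← h p hp]; exact he⟩
  · rintro ⟨h1, h2⟩
    refine ⟨fun p hp t ht => ?_, fun v hv => ?_⟩
    · rw [h p hp]; exact h1 p hp t ht
    · obtain ⟨p, hp, hpB, he⟩ := h2 v hv
      exact ⟨p, hp, hpB, by rw [h p hp]; exact he⟩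

open Classical in
theorem t_PRB (hFIX : S_FIX) (hPAT : S_PAT) : S_PRB := by
  intro ε hε hε1
  obtain ⟨X1, h1⟩ := hFIX ε hε hε1
  obtain ⟨X2, h2⟩ := hPAT ε hε hε1
  obtain ⟨X3, h3⟩ := num
  refine ⟨max X1 (max X2 (max X3 1)), fun X hX H T hH hT hTc hadm => ?_⟩
  have hX1 : X1 ≤ X := (le_max_left _ _).trans hX
  have hX2 : X2 ≤ X := ((le_max_left _ _).trans (le_max_right _ _)).trans hX
  have hX3 : X3 ≤ X := ((le_max_left _ _).trans ((le_max_right _ _).trans (le_max_right _ _))).trans hX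
  have hX4 : 1 ≤ X := ((le_max_right _ _).trans ((le_max_right _ _).trans (le_max_right _ _))).trans hX
  intro Ω _ μ _ a hm hi hu
  obtain ⟨hz2, i, hHi, hN⟩ := h3 X hX3 ε hε hε1 H hH
  choose! b hb1 hb2 using hadm
  obtain ⟨Q, hQ⟩ : ∃ Q : ℕ, Q = primorial (z1 X) * 2 ^ i := ⟨_, rfl⟩
  obtain ⟨N, hNd⟩ : ∃ N : ℕ, N = X / (2 * Q) := ⟨_, rfl⟩
  rw [← hQ, ← hNd] at hN
  have hPpos := primorial_pos (z1 X)
  have hPQ : primorial (z1 X) ≤ Q := by
    rw [hQ]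
    exact Nat.le_mul_of_pos_right _ (by positivity)
  have hHQ : H < Q := by
    rw [hQ]
    exact hHi.trans_le (Nat.le_mul_of_pos_left _ hPpos)
  have hQN2 : Q * N * 2 ≤ X := by
    rw [hNd]
    have := Nat.div_mul_le_self X (2 * Q)
    calc Q * (X / (2 * Q)) * 2 = X / (2 * Q) * (2 * Q) := by ring
      _ ≤ X := this
  have hQQ : ∀ p ∈ QQ X, ¬ p ∣ Q := by
    intro p hp hd
    have hp1 : p.Prime := (mem_filter.1 hp).2
    have hp2 : z1 X < p := (mem_Ioc.1 (mem_filter.1 hp).1).1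
    rw [hQ] at hd
    rcases (Nat.Prime.dvd_mul hp1).1 hd with h | h
    · have := ((mem_sm _ _).1 (dvd_primorial' hp1 h)).2
      omega
    · have h4 := hp1.dvd_of_dvd_pow h
      have h5 := Nat.le_of_dvd (by norm_num) h4
      omega
  -- the bad event
  obtain ⟨Bad, hBad⟩ : ∃ Bad : (ℕ → ℕ) → Prop, Bad = fun ρ => ∀ s < N, ¬ Ok T (range (H + 1) \ T) (Bs ε X) (QQ X).toList
    (n0 X (z1 X) b hb1 ρ + Q * s) ρ := ⟨_, rfl⟩
  have hdisj : ∀ p ∈ sm (z1 X), p ∉ QQ X := by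
    intro p hp hq
    have h4 := ((mem_sm _ _).1 hp).2
    have h5 := (mem_Ioc.1 (mem_filter.1 hq).1).1
    omega
  have hprob : μ {ω | Bad (fun q => a q ω)} ≤ ENNReal.ofReal (3 * Real.log X ^ (-(1 / 2) : ℝ)) := by
    refine prob_le μ a hm hi hu ((sm (z1 X)).toList ++ (QQ X).toList) ?_ ?_ Bad ?_ (fun ρ => if Bad ρ then 1 else 0) ?_ ?_ _ ?_
    · refine List.nodup_append.2 ⟨nodup_toList _, nodup_toList _, ?_⟩
      intro p hp q hq hpq
      subst hpq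
      exact hdisj p (mem_toList.1 hp) (mem_toList.1 hq)
    · intro p hp
      rcases List.mem_append.1 hp with h | h
      · exact ((mem_sm _ _).1 (mem_toList.1 h)).1
      · exact (mem_filter.1 (mem_toList.1 h)).2
    · intro ρ ρ' h hρ
      rw [hBad] at hρ ⊢
      intro s hs
      rw [← n0_congr X (z1 X) b hb1 (fun p hp => h p (List.mem_append_left _ (mem_toList.2 hp))),
        ← Ok_congr T _ _ _ _ (fun p hp => h p (List.mem_append_right _ hp))]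
      exact hρ s hs
    · intro ρ
      split_ifs <;> norm_num
    · intro ρ hρ
      simp only [hρ, if_true, le_refl]
    · rw [EE_append]
      apply EE_le_const _ (fun p hp => ((mem_sm _ _).1 (mem_toList.1 hp)).1.pos)
      intro ρ _ _
      refine le_trans (le_of_eq ?_) (h1 X hX1 H T hH hT hTc Q N hHQ hQQ hN (by omega) (n0 X (z1 X) b hb1 ρ) ρ)
      apply EE_congr
      intro σ hσ _
      have h4 : n0 X (z1 X) b hb1 σ = n0 X (z1 X) b hb1 ρ :=
        n0_congr X (z1 X) b hb1 (fun p hp => hσ p (fun h => hdisj p hp (mem_toList.1 h)))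
      simp only [hBad, h4]
  refine le_trans (measure_mono_ae ?_) hprob
  filter_upwards [ae_lt μ a hm hu] with ω hω hnot
  by_contra hcon
  apply hnot
  have hcon' : ¬ Bad (fun q => a q ω) := hcon
  rw [hBad] at hcon'
  push Not at hcon'
  obtain ⟨s, hs, hOk⟩ := hcon'
  obtain ⟨hn1, hn2, hn3⟩ := n0_spec X (z1 X) b hb1 (fun q => a q ω)
  have hsN : Q * s + Q ≤ Q * N := by
    have : s + 1 ≤ N := hs
    calc Q * s + Q = Q * (s + 1) := by ring
      _ ≤ Q * N := Nat.mul_le_mul_left _ this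
  have hle : n0 X (z1 X) b hb1 (fun q => a q ω) + Q * s ≤ 2 * X := by omega
  refine ⟨n0 X (z1 X) b hb1 (fun q => a q ω) + Q * s, by omega, hle, ?_⟩
  refine h2 X hX2 H T hH hT (fun q => a q ω) hω _ (by omega) hle ?_ hOk
  intro p hp hpz t ht heq
  have hps : p ∈ sm (z1 X) := (mem_sm _ _).2 ⟨hp, hpz⟩
  have h4 := hn3 p hps
  have h5 : p ∣ Q := by
    rw [hQ]
    exact Dvd.dvd.mul_right (dvd_primorial hps) _
  have h6 : Q * s ≡ 0 [MOD p] := (Nat.modEq_zero_iff_dvd).2 (Dvd.dvd.mul_right h5 _)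
  have h7 : n0 X (z1 X) b hb1 (fun q => a q ω) + Q * s + t ≡ a p ω [MOD p] := by
    unfold Nat.ModEq
    rw [heq, Nat.mod_eq_of_lt (hω p hp)]
  have h8 : n0 X (z1 X) b hb1 (fun q => a q ω) + Q * s + t ≡ n0 X (z1 X) b hb1 (fun q => a q ω) + t [MOD p] := by
    have := (Nat.ModEq.add_left (n0 X (z1 X) b hb1 (fun q => a q ω)) h6).add_right t
    simpa using this
  have h9 : n0 X (z1 X) b hb1 (fun q => a q ω) + t ≡ n0 X (z1 X) b hb1 (fun q => a q ω) + b p [MOD p] :=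
    h8.symm.trans (h7.trans h4.symm)
  have h10 := Nat.ModEq.add_left_cancel' _ h9
  have h11 : t % p = b p % p := h10
  rw [Nat.mod_eq_of_lt (hb1 p hp)] at h11
  exact hb2 p hp t ht h11

end Pool.Agent.V5helper70.LR
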