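import Pool.Agent.V5helper49.LR.Stm2

/-! Project LR, job EEJ. -/

set_option autoImplicit false

namespace Pool.Agent.V5helper70.LR

open Finset
open Pool.Agent.V5helper49.LR
open Pool.Agent.V5helper42.RS (EE S PP W model EE_mono EE_congr EE_const)

/-- `Ok` with some places of `V` removed before -/
def OkK (T V B : Finset ℕ) (l : List ℕ) (K : Finset ℕ) (n : ℕ) (ρ : ℕ → ℕ) : Prop :=
  (∀ p ∈ l, ∀ t ∈ T, (n + t) % p ≠ ρ p) ∧ ∀ v ∈ V, v ∈ K ∨ ∃ p ∈ l, p ∈ B ∧ (n + v) % p = ρ p

lemma OkK_empty (T V B : Finset ℕ) (l : List ℕ) (n : ℕ) (ρ : ℕ → ℕ) : OkK T V B l ∅ n ρ ↔ Ok T V B l n ρ := by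
  unfold OkK Ok
  simp

lemma mod_iff (n t x p : ℕ) (hx : x < p) : (n + t) % p = (n + x) % p ↔ t % p = x := by
  constructor
  · intro h
    have h1 : n + t ≡ n + x [MOD p] := h
    have h2 := Nat.ModEq.add_left_cancel' n h1
    have h3 : t % p = x % p := h2
    rw [h3, Nat.mod_eq_of_lt hx]
  · intro h
    rw [← h, Nat.add_mod_mod]

lemma step_iff (T V B : Finset ℕ) (l : List ℕ) (K : Finset ℕ) (n p x : ℕ) (hx : x < p) (ρ : ℕ → ℕ)
    (hρ : ρ p = (n + x) % p) :
    OkK T V B (p :: l) K n ρ ↔ av T p x ∧ OkK T V B l (K ∪ hit V B p x) n ρ := by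
  unfold OkK av
  constructor
  · rintro ⟨h1, h2⟩
    refine ⟨fun t ht h => ?_, fun q hq => h1 q (List.mem_cons_of_mem _ hq), fun v hv => ?_⟩
    · apply h1 p (by simp) t ht
      rw [hρ, mod_iff _ _ _ _ hx]
      exact h
    · rcases h2 v hv with h | ⟨q, hq, hqB, hqv⟩
      · exact Or.inl (mem_union_left _ h)
      · rcases List.mem_cons.1 hq with rfl | hq
        · left
          apply mem_union_right
          unfold hit
          rw [if_pos hqB, mem_filter]
          rw [hρ, mod_iff _ _ _ _ hx] at hqv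
          exact ⟨hv, hqv⟩
        · exact Or.inr ⟨q, hq, hqB, hqv⟩
  · rintro ⟨h0, h1, h2⟩
    refine ⟨fun q hq t ht => ?_, fun v hv => ?_⟩
    · rcases List.mem_cons.1 hq with rfl | hq
      · rw [hρ, Ne, mod_iff _ _ _ _ hx]
        exact h0 t ht
      · exact h1 q hq t ht
    · rcases h2 v hv with h | ⟨q, hq, hqB, hqv⟩
      · rcases mem_union.1 h with h | h
        · exact Or.inl h
        · right
          unfold hit at h
          split_ifs at h with hB
          · rw [mem_filter] at h
            exact ⟨p, by simp, hB, by rw [hρ, mod_iff _ _ _ _ hx]; exact h.2⟩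
          · exact absurd h (notMem_empty v)
      · exact Or.inr ⟨q, List.mem_cons_of_mem _ hq, hqB, hqv⟩

lemma reidx (p n : ℕ) (hp : 0 < p) (g : ℕ → ℝ) : ∑ r ∈ range p, g r = ∑ x ∈ range p, g ((n + x) % p) := by
  have hinj : Set.InjOn (fun x => (n + x) % p) (range p : Finset ℕ) := by
    intro x hx y hy h
    have hx' := mem_range.1 (mem_coe.1 hx)
    have hy' := mem_range.1 (mem_coe.1 hy)
    have h1 := (mod_iff n x y p hy').1 h
    rwa [Nat.mod_eq_of_lt hx'] at h1
  have himg : (range p).image (fun x => (n + x) % p) = range p := by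
    apply eq_of_subset_of_card_le
    · intro r hr
      obtain ⟨x, _, rfl⟩ := mem_image.1 hr
      exact mem_range.2 (Nat.mod_lt _ hp)
    · rw [card_image_of_injOn hinj]
  conv_lhs => rw [← himg]
  rw [sum_image hinj]

open Classical in
lemma one (T V B : Finset ℕ) (n : ℕ) : ∀ l : List ℕ, l.Nodup → (∀ p ∈ l, 0 < p) → ∀ (ρ : ℕ → ℕ) (K : Finset ℕ),
    EE l (fun σ => if OkK T V B l K n σ then 1 else 0) ρ = A1 T V B l K := by
  intro l
  induction l with
  | nil =>
    intro _ _ ρ K
    simp only [EE, A1, OkK]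
    simp only [List.not_mem_nil, false_and, exists_false, or_false, IsEmpty.forall_iff, implies_true, true_and]
    rfl
  | cons p l ih =>
    intro hnd hpos ρ K
    have hnd' : l.Nodup := (List.nodup_cons.1 hnd).2
    have hpl : p ∉ l := (List.nodup_cons.1 hnd).1
    have hp : 0 < p := hpos p (by simp)
    have hpos' : ∀ q ∈ l, 0 < q := fun q hq => hpos q (List.mem_cons_of_mem _ hq)
    simp only [EE, A1]
    congr 1
    rw [reidx p n hp]
    apply sum_congr rfl
    intro x hx
    have hx' := mem_range.1 hx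
    have h1 : EE l (fun σ => if OkK T V B (p :: l) K n σ then 1 else 0) (Function.update ρ p ((n + x) % p)) =
        EE l (fun σ => if av T p x ∧ OkK T V B l (K ∪ hit V B p x) n σ then 1 else 0)
          (Function.update ρ p ((n + x) % p)) := by
      apply EE_congr
      intro σ hσ _
      have h2 : σ p = (n + x) % p := by rw [hσ p hpl, Function.update_self]
      simp only [step_iff T V B l K n p x hx' σ h2]
    rw [h1]
    by_cases ha : av T p x
    · simp only [ha, true_and, if_true]
      exact ih hnd' hpos' _ _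
    · simp only [ha, false_and, if_false]
      exact EE_const l hpos' 0 _

open Classical in
lemma two (T V B : Finset ℕ) (n' D : ℕ) : ∀ l : List ℕ, l.Nodup → (∀ p ∈ l, 0 < p) → ∀ (ρ : ℕ → ℕ) (K K' : Finset ℕ),
    EE l (fun σ => if OkK T V B l K (n' + D) σ ∧ OkK T V B l K' n' σ then 1 else 0) ρ = J T V B ∅ D l K K' := by
  intro l
  induction l with
  | nil =>
    intro _ _ ρ K K'
    simp only [EE, J, OkK]
    simp only [List.not_mem_nil, false_and, exists_false, or_false, IsEmpty.forall_iff, implies_true, true_and]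
    rfl
  | cons p l ih =>
    intro hnd hpos ρ K K'
    have hnd' : l.Nodup := (List.nodup_cons.1 hnd).2
    have hpl : p ∉ l := (List.nodup_cons.1 hnd).1
    have hp : 0 < p := hpos p (by simp)
    have hpos' : ∀ q ∈ l, 0 < q := fun q hq => hpos q (List.mem_cons_of_mem _ hq)
    simp only [EE, J]
    rw [if_neg (notMem_empty p)]
    congr 1
    rw [reidx p (n' + D) hp]
    apply sum_congr rfl
    intro x hx
    have hx' := mem_range.1 hx
    have hx'' : (x + D) % p < p := Nat.mod_lt _ hp
    have h1 : EE l (fun σ => if OkK T V B (p :: l) K (n' + D) σ ∧ OkK T V B (p :: l) K' n' σ then 1 else 0)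
          (Function.update ρ p ((n' + D + x) % p)) =
        EE l (fun σ => if (av T p x ∧ av T p ((x + D) % p)) ∧ (OkK T V B l (K ∪ hit V B p x) (n' + D) σ ∧
            OkK T V B l (K' ∪ hit V B p ((x + D) % p)) n' σ) then 1 else 0)
          (Function.update ρ p ((n' + D + x) % p)) := by
      apply EE_congr
      intro σ hσ _
      have h2 : σ p = (n' + D + x) % p := by rw [hσ p hpl, Function.update_self]
      have h3 : σ p = (n' + (x + D) % p) % p := by
        rw [h2, Nat.add_mod_mod]
        congr 1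
        ring
      simp only [step_iff T V B l K (n' + D) p x hx' σ h2, step_iff T V B l K' n' p _ hx'' σ h3]
      congr 1
      simp only [eq_iff_iff]
      tauto
    rw [h1]
    by_cases ha : av T p x ∧ av T p ((x + D) % p)
    · rw [if_pos ha]
      have h4 := ih hnd' hpos' (Function.update ρ p ((n' + D + x) % p)) (K ∪ hit V B p x) (K' ∪ hit V B p ((x + D) % p))
      rw [← h4]
      apply EE_congr
      intro σ _ _
      simp only [ha, true_and]
    · rw [if_neg ha]
      have h4 := EE_const l hpos' 0 (Function.update ρ p ((n' + D + x) % p))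
      refine (EE_congr l _ _ _ ?_).trans h4
      intro σ _ _
      exact if_neg (fun h => ha h.1)

open Classical in
theorem t_EEJ : S_EEJ := by
  intro T V B l hnd hpos ρ
  refine ⟨fun n => ?_, fun n' D => ?_⟩
  · refine (EE_congr l _ _ _ ?_).trans (one T V B n l hnd hpos ρ ∅)
    intro σ _ _
    exact if_congr (OkK_empty T V B l n σ).symm rfl rfl
  · refine (EE_congr l _ _ _ ?_).trans (two T V B n' D l hnd hpos ρ ∅ ∅)
    intro σ _ _
    exact if_congr (and_congr (OkK_empty T V B l (n' + D) σ).symm (OkK_empty T V B l n' σ).symm) rfl rfl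

end Pool.Agent.V5helper70.LR
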